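import Pool.Agent.Helper60.Unc.Dense
import Pool.Agent.Helper60.Unc.Rho

/-!
The space of fourth-power integrable functions on the product of aleph-one fair coins is
non-separable and has an extended unconditional basis.
-/

namespace Pool.Agent.Results.MP_1a422c_an.FourthPower

open MeasureTheory H60Unc

/-- The family `x` is an extended unconditional basis of the normed space `X` over `K`: all
members are non-zero, the closed linear span is everything, and there is a constant `M` such that
a change of signs of the coefficients of a finite combination changes the norm by a factor at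
most `M`. -/
def IsExtendedUnconditionalBasis (K : Type*) [RCLike K] {X : Type*} [NormedAddCommGroup X]
    [NormedSpace K X] {J : Type*} (x : J → X) : Prop :=
  (∀ i, x i ≠ 0) ∧
  (Submodule.span K (Set.range x)).topologicalClosure = ⊤ ∧
  ∃ M : ℝ, ∀ (d : Finset J) (a ep : J → K), (∀ i, ep i = 1 ∨ ep i = -1) →
    ‖∑ i ∈ d, (ep i * a i) • x i‖ ≤ M * ‖∑ i ∈ d, a i • x i‖

theorem basis_of_pack {I : Type} [LinearOrder I] (P : Pack I) (K : Type) [RCLike K] :
    IsExtendedUnconditionalBasis K (E K : Idx P → Lp K 4 (mu I)) := by
  classical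
  refine ⟨E_ne_zero K, ?_, MM, ?_⟩
  · refine dense_walsh (by norm_num) _ (Submodule.isClosed_topologicalClosure _) ?_
    intro W f hf
    exact Submodule.le_topologicalClosure _ (walsh_mem K P W f hf)
  · intro d a ep hep
    have h1 := mult_ineq K d a (fun i => if ep i = 1 then 1 else -1)
      (fun i => by split_ifs <;> norm_num)
    have h2 : ∀ i, (((if ep i = 1 then (1 : ℝ) else -1 : ℝ)) : K) = ep i := by
      intro i
      by_cases h3 : ep i = 1
      · simp [h3]
      · rw [if_neg h3, (hep i).resolve_left h3]
        simp
    simp only [h2] at h1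
    exact h1

/-- For the fair-coin product measure on the sign patterns of an index set of cardinality
aleph-one, the space of fourth-power integrable functions, real or complex, is non-separable and
has an extended unconditional basis. -/
theorem result :
    ∃ I : Type, Cardinal.mk I = Cardinal.aleph 1 ∧ IsProbabilityMeasure (mu I) ∧
      (¬ TopologicalSpace.SeparableSpace (Lp ℝ 4 (mu I)) ∧
        ∃ (J : Type) (x : J → Lp ℝ 4 (mu I)), IsExtendedUnconditionalBasis ℝ x) ∧
      (¬ TopologicalSpace.SeparableSpace (Lp ℂ 4 (mu I)) ∧
        ∃ (J : Type) (x : J → Lp ℂ 4 (mu I)), IsExtendedUnconditionalBasis ℂ x) := by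
  classical
  let I : Type := (Cardinal.aleph 1).ord.ToType
  have hI : Cardinal.mk I = Cardinal.aleph 1 := by simp [I]
  have hcount : ∀ δ : I, (Set.Iio δ).Countable := by
    intro δ
    have h := Cardinal.mk_Iio_ord_toType δ
    rw [← Cardinal.le_aleph0_iff_set_countable]
    rw [← Order.lt_succ_iff, ← Cardinal.aleph_zero, ← Cardinal.aleph_succ]
    simpa using h
  obtain ⟨ρ, ha, hb, hc⟩ := exists_rho hcount
  let P : Pack I :=
    { rho := ρ
      sub := ⟨ha, hb⟩
      fin := fun x m => Set.finite_of_encard_le_coe (hc x m) }
  have : Uncountable I := by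
    rw [← Cardinal.aleph0_lt_mk_iff, hI]
    exact Cardinal.aleph0_lt_aleph_one
  exact ⟨I, hI, inferInstance,
    ⟨not_separable ℝ P, Idx P, E ℝ, basis_of_pack P ℝ⟩,
    ⟨not_separable ℂ P, Idx P, E ℂ, basis_of_pack P ℂ⟩⟩

end Pool.Agent.Results.MP_1a422c_an.FourthPower
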